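import Pool.Agent.H336R5.PS.Defs

/-! Project PSUM, task D. -/

set_option autoImplicit false

namespace Pool.Agent.H394R5.PS

open Pool.Agent.H336R5.PS

theorem taskD : TaskD := by
  intro w hw
  have h1 : (w * Complex.log (1 + w)).re =
      w.re * Real.log ‖1 + w‖ - w.im * Complex.arg (1 + w) := by
    rw [Complex.mul_re, Complex.log_re, Complex.log_im]
  have hre : (1 + w).re = 1 + w.re := by simp
  have h2 : |Complex.arg (1 + w)| ≤ Real.pi / 2 := by
    rw [Complex.abs_arg_le_pi_div_two_iff, hre]
    linarith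
  have h3 : w.re * Real.log w.re ≤ w.re * Real.log ‖1 + w‖ := by
    rcases hw.eq_or_lt with h | h
    · rw [← h]; simp
    · refine mul_le_mul_of_nonneg_left (Real.log_le_log h ?_) hw
      have := Complex.re_le_norm (1 + w)
      rw [hre] at this
      linarith
  have h4 : w.im * Complex.arg (1 + w) ≤ Real.pi / 2 * |w.im| := by
    calc w.im * Complex.arg (1 + w) ≤ |w.im * Complex.arg (1 + w)| := le_abs_self _
      _ = |w.im| * |Complex.arg (1 + w)| := abs_mul _ _
      _ ≤ |w.im| * (Real.pi / 2) := mul_le_mul_of_nonneg_left h2 (abs_nonneg _)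
      _ = Real.pi / 2 * |w.im| := mul_comm _ _
  rw [h1]
  linarith

end Pool.Agent.H394R5.PS
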